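import Mathlib

/-!
MP_ee74d2_an, theorem KT: combinatorial targets (block C). `s, x, a, b, a', b'` are six times.
-/

set_option autoImplicit false

namespace Pool.Agent.H82.KT

/-- the pairs of times which have to be far from each other -/
def Adm (ω J : ℝ) (s x a b : ℤ) : Prop :=
  ω * J < |(s : ℝ) - x| ∧ ω * J < |(a : ℝ) - s| ∧ ω * J < |(b : ℝ) - s| ∧ ω * J < |(b : ℝ) - x|

/-- the function of the times `a, b` which is almost equal for the two pairs -/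
noncomputable def Ph (s x a b : ℤ) : ℝ := ((b : ℝ) - x) / (((b : ℝ) - s) * ((a : ℝ) - s))

/-- patterns of six times -/
def Pat (ω ρ J : ℝ) (s x a b a' b' : ℤ) : Prop :=
  Adm ω J s x a b ∧ Adm ω J s x a' b' ∧ |Ph s x a b - Ph s x a' b'| ≤ 1 / J ^ 2 ∧
  ρ * J < |(a : ℝ) - a'|

/-- the function `P + u V` is near `y` at the time `u` -/
def Nr {ι : Type} (E : ℝ) (P V : ι → ℝ) (u : ℤ) (y : ι → ℤ) : Prop :=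
  ∀ i, |P i + u * V i - y i| ≤ E

open scoped Classical in
/-- the six times of a pattern -/
def six (s x a b a' b' : ℤ) : Finset ℤ := {s, x, a, b, a', b'}

open scoped Classical in
/-- FIB: the last time of a pattern -/
def T_FIB : Prop := ∀ (I : Finset ℤ) (J ω c : ℝ) (s x a : ℤ), 0 < J → 0 < ω → ω ≤ 1 →
  (∀ u ∈ I, ∀ v ∈ I, |((u : ℝ) - v)| ≤ J) → s ∈ I → a ∈ I →
  ((I.filter fun b => Adm ω J s x a b ∧ |c - Ph s x a b| ≤ 1 / J ^ 2).card : ℝ) ≤ 3 / ω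

/-- SEP: the times `b, b'` of a pattern are far from each other -/
def T_SEP : Prop := ∀ (J ω ρ : ℝ) (s x a b a' b' : ℤ), 0 < J → 0 < ω → ω ≤ 1 → 0 < ρ →
  2 ≤ ρ * ω ^ 3 * J →
  (∀ u ∈ six s x a b a' b', ∀ v ∈ six s x a b a' b', |((u : ℝ) - v)| ≤ J) →
  Pat ω ρ J s x a b a' b' → ρ * ω ^ 2 / 2 * J ≤ |((b : ℝ) - b')|

/-- IDN: the velocity of the first function of a cycle, one coordinate -/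
def T_IDN : Prop := ∀ (J ω ρ E L : ℝ) (s x a b a' b' : ℤ) (P V : Fin 4 → ℝ) (y₁ y₂ y₃ : ℝ),
  0 < J → 0 < ω → ω ≤ 1 → 0 ≤ E → 0 ≤ L →
  (∀ u ∈ six s x a b a' b', ∀ v ∈ six s x a b a' b', |((u : ℝ) - v)| ≤ J) →
  Pat ω ρ J s x a b a' b' →
  |(P 0 + s * V 0) - (P 1 + s * V 1)| ≤ 2 * E → |(P 1 + b * V 1) - (P 2 + b * V 2)| ≤ 2 * E →
  |(P 2 + s * V 2) - (P 3 + s * V 3)| ≤ 2 * E → |(P 3 + a' * V 3) - (P 0 + a' * V 0)| ≤ 2 * E →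
  |P 1 + x * V 1 - y₁| ≤ E → |P 2 + b' * V 2 - y₂| ≤ E → |P 3 + a * V 3 - y₃| ≤ E →
  |V 2| ≤ L →
  |((s : ℝ) - a') * V 0 - (y₁ - y₃ + ((s : ℝ) - x) / (b - x) * (y₂ - y₁) -
    ((a' : ℝ) - a) / (s - a) * (y₂ - y₃))| ≤ (12 * E + L) / ω

open scoped Classical in
/-- CYC: cycles of length four -/
def T_CYC : Prop := ∀ (τ α : Type) (G : Finset τ) (f₀ f₁ f₂ : τ → α) (Y₀ Y₁ Y₂ : Finset α),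
  (∀ g ∈ G, f₀ g ∈ Y₀ ∧ f₁ g ∈ Y₁ ∧ f₂ g ∈ Y₂) →
  (G.card : ℝ) ^ 4 ≤ (Y₀.card : ℝ) ^ 2 * Y₁.card * Y₂.card *
    (((G ×ˢ G) ×ˢ (G ×ˢ G)).filter fun q => f₀ q.1.1 = f₀ q.1.2 ∧ f₁ q.1.2 = f₁ q.2.1 ∧
      f₀ q.2.1 = f₀ q.2.2 ∧ f₂ q.2.2 = f₂ q.1.1).card

open scoped Classical in
/-- BOX: functions with velocities in a box -/
def T_BOX : Prop := ∀ (ι : Type) [Fintype ι] (τ : Type) (G : Finset τ) (W : τ → ι → ℝ)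
  (c : ι → ℝ) (r f : ℝ), 0 ≤ r → 0 ≤ f →
  (∀ w : ι → ℤ, ((G.filter fun g => (fun i => ⌊W g i⌋) = w).card : ℝ) ≤ f) →
  (∀ g ∈ G, ∀ i, |W g i - c i| ≤ r) → (G.card : ℝ) ≤ (2 * r + 2) ^ Fintype.card ι * f

open scoped Classical in
/-- QUB: the cycles of the functions which carry a given pattern -/
def T_QUB : Prop := ∀ (ι : Type) [Fintype ι] (τ : Type) (G : Finset τ) (P V : τ → ι → ℝ)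
  (Y : ℤ → Finset (ι → ℤ)) (yy : τ → ℤ → ι → ℤ) (m : ℕ) (J E L ω ρ μ f : ℝ)
  (s x a b a' b' : ℤ), 0 < J → 1 ≤ E → 0 ≤ L → 0 < ω → ω ≤ 1 → 0 < ρ → 2 ≤ ρ * ω ^ 3 * J →
  0 ≤ μ → 0 ≤ f →
  (∀ u ∈ six s x a b a' b', ∀ v ∈ six s x a b a' b', |((u : ℝ) - v)| ≤ J) →
  Pat ω ρ J s x a b a' b' →
  (∀ g ∈ G, (∀ i, |V g i| ≤ L) ∧
    ∀ u ∈ six s x a b a' b', yy g u ∈ Y u ∧ Nr E (P g) (V g) u (yy g u)) →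
  (∀ u ∈ six s x a b a' b', ∀ v ∈ six s x a b a' b', ∀ r : ℝ, 0 < r → r * J ≤ |((u : ℝ) - v)| →
    ∀ y ∈ Y u, ∀ y' ∈ Y v,
      ((G.filter fun g => Nr E (P g) (V g) u y ∧ Nr E (P g) (V g) v y').card : ℝ) ≤
        μ * (1 / r) ^ m) →
  (∀ w : ι → ℤ, ((G.filter fun g => (fun i => ⌊J * V g i⌋) = w).card : ℝ) ≤ f) →
  ((((G ×ˢ G) ×ˢ (G ×ˢ G)).filter fun q => yy q.1.1 s = yy q.1.2 s ∧
      yy q.1.2 b = yy q.2.1 b ∧ yy q.2.1 s = yy q.2.2 s ∧ yy q.2.2 a' = yy q.1.1 a').card : ℝ) ≤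
    (32 * (E + L) / ω ^ 2) ^ Fintype.card ι * f * μ ^ 3 * (1 / ω) ^ (2 * m) *
      (2 / (ρ * ω ^ 2)) ^ m * (((Y x).card : ℝ) * (Y b').card * (Y a).card)

open scoped Classical in
/-- QUA: the functions which carry a given pattern -/
def T_QUA : Prop := ∀ (ι : Type) [Fintype ι] (τ : Type) (G : Finset τ) (P V : τ → ι → ℝ)
  (Y : ℤ → Finset (ι → ℤ)) (m : ℕ) (J E L ω ρ μ f : ℝ) (s x a b a' b' : ℤ), 0 < J → 1 ≤ E →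
  0 ≤ L → 0 < ω → ω ≤ 1 → 0 < ρ → 2 ≤ ρ * ω ^ 3 * J → 0 ≤ μ → 0 ≤ f →
  (∀ u ∈ six s x a b a' b', ∀ v ∈ six s x a b a' b', |((u : ℝ) - v)| ≤ J) →
  Pat ω ρ J s x a b a' b' →
  (∀ g ∈ G, (∀ i, |V g i| ≤ L) ∧
    ∀ u ∈ six s x a b a' b', ∃ y ∈ Y u, Nr E (P g) (V g) u y) →
  (∀ u ∈ six s x a b a' b', ∀ v ∈ six s x a b a' b', ∀ r : ℝ, 0 < r → r * J ≤ |((u : ℝ) - v)| →
    ∀ y ∈ Y u, ∀ y' ∈ Y v,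
      ((G.filter fun g => Nr E (P g) (V g) u y ∧ Nr E (P g) (V g) v y').card : ℝ) ≤
        μ * (1 / r) ^ m) →
  (∀ w : ι → ℤ, ((G.filter fun g => (fun i => ⌊J * V g i⌋) = w).card : ℝ) ≤ f) →
  (G.card : ℝ) ^ 4 ≤ (32 * (E + L) / ω ^ 2) ^ Fintype.card ι * f * μ ^ 3 * (1 / ω) ^ (2 * m) *
    (2 / (ρ * ω ^ 2)) ^ m * (((Y s).card : ℝ) ^ 2 * (Y x).card * (Y a).card * (Y b).card *
      (Y a').card * (Y b').card)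

open scoped Classical in
/-- PSM: sums over patterns -/
def T_PSM : Prop := ∀ (I : Finset ℤ) (z : ℤ → ℝ) (N : ℤ → ℤ → ℤ → ℤ → ℤ → ℤ → ℝ) (J ω ρ K : ℝ),
  1 ≤ J → 0 < ω → ω ≤ 1 → 0 ≤ K → (∀ u ∈ I, ∀ v ∈ I, |((u : ℝ) - v)| ≤ J) →
  (∀ u ∈ I, 0 ≤ z u) → ∑ u ∈ I, z u ≤ J →
  (∀ s ∈ I, ∀ x ∈ I, ∀ a ∈ I, ∀ b ∈ I, ∀ a' ∈ I, ∀ b' ∈ I, Pat ω ρ J s x a b a' b' →
    0 ≤ N s x a b a' b' ∧
    N s x a b a' b' ^ 4 ≤ K ^ 4 * (z s ^ 2 * z x * z a * z b * z a' * z b')) →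
  ∑ s ∈ I, ∑ x ∈ I, ∑ a ∈ I, ∑ b ∈ I, ∑ a' ∈ I, ∑ b' ∈ I,
    (if Pat ω ρ J s x a b a' b' then N s x a b a' b' else 0) ≤ 777 * K * J ^ 5 / ω

open scoped Classical in
/-- CNA: two pairs of times with almost equal `Ph` -/
def T_CNA : Prop := ∀ (I : Finset ℤ) (h : ℤ → ℝ) (J ω n : ℝ), 1 ≤ J → 0 < ω → ω ≤ 1 →
  (∀ u ∈ I, ∀ v ∈ I, |((u : ℝ) - v)| ≤ J) → (∀ u ∈ I, 0 ≤ h u) → n = ∑ u ∈ I, h u → 0 < n →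
  (∀ v ∈ I, 16 * ∑ u ∈ I.filter (fun u : ℤ => |((u : ℝ) - v)| ≤ ω * J), h u ≤ n) →
  9 / 64 * ω ^ 2 * n ^ 6 / J ≤
    ∑ s ∈ I, ∑ x ∈ I, ∑ a ∈ I, ∑ b ∈ I, ∑ a' ∈ I, ∑ b' ∈ I,
      (if Adm ω J s x a b ∧ Adm ω J s x a' b' ∧ |Ph s x a b - Ph s x a' b'| ≤ 1 / J ^ 2 then
        h s * h x * h a * h b * h a' * h b' else 0)

open scoped Classical in
/-- CNB: two pairs of times with almost equal `Ph` and `a` near `a'` -/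
def T_CNB : Prop := ∀ (I : Finset ℤ) (h : ℤ → ℝ) (J ω ρ H n : ℝ), 1 ≤ J → 0 < ω → ω ≤ 1 →
  0 ≤ H → 1 ≤ ρ * J → (∀ u ∈ I, ∀ v ∈ I, |((u : ℝ) - v)| ≤ J) →
  (∀ u ∈ I, 0 ≤ h u ∧ h u ≤ H) → n = ∑ u ∈ I, h u →
  ∑ s ∈ I, ∑ x ∈ I, ∑ a ∈ I, ∑ b ∈ I, ∑ a' ∈ I, ∑ b' ∈ I,
      (if (Adm ω J s x a b ∧ Adm ω J s x a' b' ∧ |Ph s x a b - Ph s x a' b'| ≤ 1 / J ^ 2) ∧
        |(a : ℝ) - a'| ≤ ρ * J then h s * h x * h a * h b * h a' * h b' else 0) ≤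
    9 * ρ * J * H ^ 2 * n ^ 4 / ω

open scoped Classical in
/-- CNT: the patterns of one function -/
def T_CNT : Prop := ∀ (I : Finset ℤ) (h : ℤ → ℝ) (J κ ω H : ℝ), 1 ≤ J → 0 < κ → 0 < ω →
  ω ≤ 1 → 1 ≤ H → 216 * H ^ 2 ≤ ω ^ 3 * κ ^ 2 * J →
  (∀ u ∈ I, ∀ v ∈ I, |((u : ℝ) - v)| ≤ J) → (∀ u ∈ I, 0 ≤ h u ∧ h u ≤ H) →
  κ * J ≤ ∑ u ∈ I, h u →
  (∀ v ∈ I, 16 * ∑ u ∈ I.filter (fun u : ℤ => |((u : ℝ) - v)| ≤ ω * J), h u ≤ ∑ u ∈ I, h u) →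
  ω ^ 2 * κ ^ 6 * J ^ 5 / 16 ≤
    ∑ s ∈ I, ∑ x ∈ I, ∑ a ∈ I, ∑ b ∈ I, ∑ a' ∈ I, ∑ b' ∈ I,
      (if Pat ω (ω ^ 3 * κ ^ 2 / (216 * H ^ 2)) J s x a b a' b' then
        h s * h x * h a * h b * h a' * h b' else 0)

open scoped Classical in
/-- KTM: affine functions with many values near few points, two ends -/
def T_KTM : Prop := ∀ (ι : Type) [Fintype ι] (τ : Type) (TT : Finset τ) (P V : τ → ι → ℝ)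
  (h : τ → ℤ → ℝ) (I : Finset ℤ) (Y : ℤ → Finset (ι → ℤ)) (m : ℕ)
  (J κ ω H E L Θ μ f : ℝ), 1 ≤ J → 0 < κ → 0 < ω → ω ≤ 1 → 1 ≤ H → 1 ≤ E → 0 ≤ L → 0 < Θ →
  0 ≤ μ → 0 ≤ f → 432 * H ^ 2 ≤ ω ^ 6 * κ ^ 2 * J →
  (∀ u ∈ I, ∀ v ∈ I, |((u : ℝ) - v)| ≤ J) → ∑ u ∈ I, ((Y u).card : ℝ) ≤ Θ * J →
  (∀ g ∈ TT, (∀ i, |V g i| ≤ L) ∧
    (∀ u ∈ I, 0 ≤ h g u ∧ h g u ≤ H ∧ (h g u ≠ 0 → ∃ y ∈ Y u, Nr E (P g) (V g) u y)) ∧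
    κ * J ≤ ∑ u ∈ I, h g u ∧
    ∀ v ∈ I, 16 * ∑ u ∈ I.filter (fun u : ℤ => |((u : ℝ) - v)| ≤ ω * J), h g u ≤
      ∑ u ∈ I, h g u) →
  (∀ u ∈ I, ∀ v ∈ I, ∀ r : ℝ, 0 < r → r * J ≤ |((u : ℝ) - v)| → ∀ y ∈ Y u, ∀ y' ∈ Y v,
    ((TT.filter fun g => Nr E (P g) (V g) u y ∧ Nr E (P g) (V g) v y').card : ℝ) ≤
      μ * (1 / r) ^ m) →
  (∀ w : ι → ℤ, ((TT.filter fun g => (fun i => ⌊J * V g i⌋) = w).card : ℝ) ≤ f) →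
  (TT.card : ℝ) ^ 4 * (ω ^ 12 * κ ^ 24) ≤ 2 ^ 56 * H ^ 24 *
    ((32 * (E + L) / ω ^ 2) ^ Fintype.card ι * f * μ ^ 3 * (1 / ω) ^ (2 * m) *
      (432 * H ^ 2 / (ω ^ 5 * κ ^ 2)) ^ m) * Θ ^ 7

end Pool.Agent.H82.KT
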