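import Pool.Agent.H82.KT.Fin
import Pool.Agent.H82.KT.TC
import Pool.Agent.H83.G.Final
import Pool.Agent.H22.G4.BAS
import Pool.Agent.H22.G.PG
import Pool.Agent.H1.HDN.BROp
import Pool.Agent.H11.HD.PTC
import Pool.Agent.H25.HDS.RLW
import Pool.Agent.H26.HD.BCF
import Pool.Agent.H29.HD.PRJ
import Pool.Agent.H38.HD.LEVp
import Pool.Agent.H38.HD.OENp
import Pool.Agent.H39.HDS.BCS
import Pool.Agent.H4.HDS.BCC
import Pool.Agent.H40.HD.BC0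
import Pool.Agent.H40.HD.SSCp
import Pool.Agent.H54.HDS.TDA
import Pool.Agent.H61.HD.BCS1
import Pool.Agent.H65.HD.MAINp
import Pool.Agent.H69.HDS.RECp
import Pool.Agent.H76.HD.TUB
import Pool.Agent.H85.HD.BUS
import Pool.Agent.H86.HDS.BCN
import Pool.Agent.H89.HDS.BPG
import Pool.Agent.H91.HD.PRM
import Pool.Agent.H97.HD.CVR
import Pool.Agent.H13.KTN.QUA
import Pool.Agent.H41.KT.PSM
import Pool.Agent.H41.KT.TENK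
import Pool.Agent.H44.KTN.KTM
import Pool.Agent.H5.KTN.CNT
import Pool.Agent.H53.KTN.QUB
import Pool.Agent.H55.KTN.SHW
import Pool.Agent.H70.KT.KNU
import Pool.Agent.H75.KTN.CYC
import Pool.Agent.H75.KTN.IDN
import Pool.Agent.H79.KT.CBK
import Pool.Agent.H89.KTN.WIN
import Pool.Agent.H95.KTN.BOX
import Pool.Agent.H95.KTN.FIB
import Pool.Agent.H95.KTN.SEP
import Pool.Agent.H96.KTN.CNA
import Pool.Agent.H96.KTN.CNB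

/-!
MP_ee74d2_an, theorem KT: assembly of the board ktn_modules.
-/

set_option autoImplicit false

namespace Pool.Agent.H82.KT.All

open Pool.Agent.H82.KT Pool.Agent.H82.HD Pool.Agent.H83.G.Chain
open Pool.Agent.H81.GT (T_COV T_ACS T_TAI T_POW T_REP T_TX T_CLS T_SHP)

/-! ### proved facts -/

theorem gCOV : Pool.Agent.H81.GT.T_COV := Pool.Agent.H56.G.COV.pf_COV
theorem gACS : Pool.Agent.H81.GT.T_ACS := Pool.Agent.H34.G.ACS.pf_ACS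
theorem gPOW : Pool.Agent.H81.GT.T_POW := Pool.Agent.H59.G.pf_POW
theorem gREP : Pool.Agent.H81.GT.T_REP := Pool.Agent.H33.G.pf_REP gCOV
theorem gTX : Pool.Agent.H81.GT.T_TX := Pool.Agent.H70.G.TX.pf_TX
theorem gTAI : Pool.Agent.H81.GT.T_TAI :=
  Pool.Agent.H49.G.TAI.pf_TAI (Pool.Agent.H33.G.pf_PKB (Pool.Agent.H35.G.PIE.pf_PIE
    Pool.Agent.H70.G.SUB.pf_SUB Pool.Agent.H83.LS.Chain.kbv gACS) gACS) gPOW
theorem gCLS : Pool.Agent.H81.GT.T_CLS :=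
  Pool.Agent.H81.GT.pf_CLS gREP gACS (Pool.Agent.H81.GT.pf_SHP gCOV gACS gTAI
    (Pool.Agent.H34.G.TRP.pf_TRP gPOW m_LOA m_LOB) Pool.Agent.H1.G.VOL.pf_VOL
    Pool.Agent.H83.LS.Chain.ple m_LOA m_LOB) m_WM m_AVG m_LOA m_LOB m_SCH
theorem gGL2 : Pool.Agent.H81.GT.T_GL2 := Pool.Agent.H83.G.Final.gl2
theorem gBAS : Pool.Agent.H22.G4.T_BASx := Pool.Agent.H22.G4.BAS.pf_BASx m_SPK m_SPW m_PUX m_PLN
theorem gTE1 : Pool.Agent.H83.G.T_TE1 := m_TE1 Pool.Agent.H93.BD.All.main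

/-! ### rows of hds_modules -/

theorem h_BPG : T_BPG := Pool.Agent.H89.HDS.pf_BPG
theorem h_CVR : T_CVR := Pool.Agent.H97.HD.pf_CVR
theorem h_RLW : T_RLW := Pool.Agent.H25.HDS.pf_RLW m_MOD m_PLN m_PSX m_WM m_PUB m_PUS m_WT1 m_WT3
  m_SCH m_CPS
theorem h_BCC : T_BCC := Pool.Agent.H4.HDS.pf_BCC h_BPG m_PUB m_PUS m_LOA m_LOB
theorem h_BCS1 : T_BCS1 := Pool.Agent.H61.HD.pf_BCS1 h_RLW m_PKT m_IVZ m_LO m_WM m_PUB m_PUS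
  m_CPS m_SCH m_WT1
theorem h_BCS : T_BCS := Pool.Agent.H39.HDS.pf_BCS h_BCS1 h_CVR h_BPG m_CLR m_WT1 m_WT2 m_WT3
  m_PUS m_SCH m_CPS
theorem h_SSCp : T_SSCp := Pool.Agent.H40.HD.pf_SSCp m_SSC h_BCC h_BCS
theorem h_TUB : T_TUB := Pool.Agent.H76.HD.pf_TUB m_LOA
theorem h_PTC : T_PTC := Pool.Agent.H11.HD.pf_PTC h_CVR h_BPG m_AMU m_LOA m_LOB m_WT1 m_WT3 m_PUS
  m_SCH m_CPS
theorem h_BCF : T_BCF := Pool.Agent.H26.HD.BCF.pf_BCF h_BPG Pool.Agent.H83.LS.Chain.ple gACS gPOW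
  gTAI
theorem h_BCN : T_BCN := Pool.Agent.H86.HDS.BCN.pf_BCN gACS m_PUS Pool.Agent.H83.LS.Chain.ple
theorem h_BC0 : T_BC0 := Pool.Agent.H40.HD.pf_BC0 h_BCC h_BCF h_BCN h_BPG gCLS gREP gACS gCOV
  m_KER m_SPK m_KSP m_PUB m_PUS m_SCH m_WT2
theorem h_LEVp : T_LEVp := Pool.Agent.H38.HD.pf_LEVp h_BC0 gTX gCOV gREP gGL2 gCLS m_SPK m_PUX
  m_SCH
theorem h_OENp : T_OENp := Pool.Agent.H38.HD.pf_OENp h_SSCp m_GBE m_AMU m_PLN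
theorem h_BROp : T_BROp := Pool.Agent.H1.HDN.pf_BROp m_DCP m_TLS m_AMU m_AEN m_ENB m_PG1 m_PG2
  m_PG3 h_OENp m_PSX m_LWX m_CBN m_WT3
theorem h_RECp : T_RECp := Pool.Agent.H69.HDS.pf_RECp h_BROp gBAS m_ENS m_ENB m_WT3
theorem h_MAINp : T_MAINp := Pool.Agent.H65.HD.pf_MAINp h_RECp gBAS
theorem h_BUS : T_BUS := Pool.Agent.H85.HD.pf_BUS Pool.Agent.H22.G.pf_HG1 Pool.Agent.H22.G.pf_HG2
  m_PUS
theorem h_TDA : T_TDA := Pool.Agent.H54.HDS.pf_TDA Pool.Agent.H22.G.pf_PG4 Pool.Agent.H22.G.pf_HG2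
  Pool.Agent.H22.G.pf_MU h_BUS m_CBN gTE1 m_TE2 m_TLS m_AMU m_PUS
theorem h_PRJ : T_PRJ := Pool.Agent.H29.HD.pf_PRJ h_BPG Pool.Agent.H22.G.pf_HG1
theorem h_PRM : T_PRM := Pool.Agent.H91.HD.pf_PRM h_BPG m_PUS m_LOA m_LOB

/-! ### rows of ktn_modules -/

theorem h_FIB : T_FIB := Pool.Agent.H95.KTN.pf_FIB
theorem h_SEP : T_SEP := Pool.Agent.H95.KTN.pf_SEP
theorem h_IDN : T_IDN := Pool.Agent.H75.KTN.pf_IDN
theorem h_CYC : T_CYC := Pool.Agent.H75.KTN.pf_CYC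
theorem h_BOX : T_BOX := Pool.Agent.H95.KTN.pf_BOX
theorem h_QUB : T_QUB := Pool.Agent.H53.KTN.pf_QUB h_SEP h_IDN h_BOX
theorem h_QUA : T_QUA := Pool.Agent.H13.KTN.pf_QUA h_CYC h_QUB
theorem h_PSM : T_PSM := Pool.Agent.H82.KT.pf_PSM h_FIB
theorem h_CNA : T_CNA := Pool.Agent.H96.KTN.pf_CNA
theorem h_CNB : T_CNB := Pool.Agent.H96.KTN.pf_CNB h_FIB
theorem h_CNT : T_CNT := Pool.Agent.H5.KTN.pf_CNT h_CNA h_CNB
theorem h_KTM : T_KTM := Pool.Agent.H44.KTN.pf_KTM h_CNT h_PSM h_QUA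
theorem h_WIN : T_WIN := Pool.Agent.H89.KTN.pf_WIN h_PRJ h_BPG Pool.Agent.H22.G.pf_HG1 m_CBN
theorem h_SHW : T_SHW := Pool.Agent.H55.KTN.pf_SHW h_WIN h_PRJ m_CBN
theorem h_CBK : T_CBK := Pool.Agent.H79.KT.pf_CBK h_KTM h_SHW h_PRJ h_PRM h_BPG
theorem h_KNU : T_KNU := Pool.Agent.H70.KT.pf_KNU
theorem h_TENK : T_TENK := Pool.Agent.H82.KT.pf_TENK h_TDA h_CBK h_PTC h_TUB h_KNU h_BPG m_AMU

/-- Q1 for `p ≥ 2 + 28 / (11 m - 17)` in dimension `m + 1` -/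
theorem main : ∀ (m : ℕ) (p : ℝ), 5 ≤ m → 2 + 28 / (11 * (m : ℝ) - 17) ≤ p →
    Pool.Agent.H81.GT.Q1at m p :=
  q1_kt h_TENK h_MAINp h_LEVp m_PUX

end Pool.Agent.H82.KT.All
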