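import Pool.Agent.H82.KT.TR
import Pool.Agent.H82.HD.TW
import Pool.Agent.H81.GT.AllX

/-!
MP_ee74d2_an, theorem KT: from the two-ends case to Q1.
-/

set_option autoImplicit false

namespace Pool.Agent.H82.KT

open MeasureTheory Set Pool.Agent.H81.GT Pool.Agent.H82.HD

/-- Q1 for `p ≥ 2 + 28 / (11 m - 17)`, `d = m + 1` -/
theorem q1_kt (hTEN : T_TENK) (hMAIN : T_MAINp) (hLEV : T_LEVp)
    (hPUX : Pool.Agent.H83.G.T_PUX) :
    ∀ (m : ℕ) (p : ℝ), 5 ≤ m → 2 + 28 / (11 * (m : ℝ) - 17) ≤ p → Q1at m p := by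
  intro m p hm hp
  obtain ⟨γ, hγ, hT⟩ := hTEN m hm
  have hm5 : (5 : ℝ) ≤ m := by exact_mod_cast hm
  have hN : (0 : ℝ) < 11 * m - 17 := by linarith
  obtain ⟨x, hx⟩ : ∃ x : ℝ, x = 28 / (11 * (m : ℝ) - 17) := ⟨_, rfl⟩
  have hx0 : 0 < x := by
    rw [hx]
    positivity
  have hx4 : x ≤ 4 := by
    rw [hx, div_le_iff₀ hN]
    linarith
  have h2 : 2 < m * x := by
    rw [hx, ← mul_div_assoc, lt_div_iff₀ hN]
    linarith
  rw [← hx] at hp
  have hSEC : ∀ q : ℝ, 2 + x < q → SEC m (1 / 8) q := by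
    intro q hq
    refine hLEV m (1 / 8) x q (by omega) le_rfl hx0 hq ?_
    intro ε hε
    obtain ⟨β, hβ⟩ := hPUX m
    have h3 := hT (2 * m + 6) le_rfl
    rw [← hx] at h3
    obtain ⟨C, hC, h4⟩ := hMAIN m (2 * m + 6) x γ β ε (by omega) hx0 hx4 h2 hγ h3 le_rfl hβ hε
    exact ⟨2 * m + 6, β, C, le_rfl, hβ, hC, h4⟩
  have h1 : RES m (2 + x) := res_of_sec (κ := 1 / 8) (by norm_num) (by linarith) hSEC
  have h5 : BLA m p := bla_of_res2 Pool.Agent.H83.LS.Chain.marc Pool.Agent.H83.LS.Chain.ple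
    (by omega) (by linarith) hp h1
  exact q1_of_bla Pool.Agent.H83.LS.Chain.radl Pool.Agent.H83.LS.Chain.lowf
    Pool.Agent.H83.LS.Chain.yg Pool.Agent.H83.LS.Chain.ple (by omega) (by linarith) h5

end Pool.Agent.H82.KT
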