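import Pool.Agent.H82.HD.TR

/-!
MP_ee74d2_an, theorem KT: targets for the tubes (block T), `x = 28 / (11 m - 17)`.
-/

set_option autoImplicit false

namespace Pool.Agent.H82.KT

open MeasureTheory Set
open Pool.Agent.H83.G Pool.Agent.H82.HD
open Pool.Agent.H22.G (co)
open scoped ENNReal NNReal RealInnerProductSpace

open scoped Classical in
/-- WIN: the cubes of a tube of a shading class in a short interval of projective time -/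
def T_WIN : Prop := ∀ m : ℕ, ∃ C : ℝ, 1 ≤ C ∧ ∀ (R T δ ε₀ v : ℝ) (z₀ : Z m) (Tu : Pk m)
  (QQ : Finset (Zi m)) (l k : ℕ), 1 ≤ R → 0 ≤ δ → 0 ≤ ε₀ → 2 * δ + ε₀ ≤ 1 / 2 →
  16 * ((m : ℝ) + 2) * R ≤ T → 3 / 4 * T ≤ tm z₀ → tm z₀ ≤ 3 * T → ‖ctr (sR R) Tu.1‖ ≤ 3 →
  (∀ q ∈ QQ, ‖co R q - z₀‖ ≤ ((m : ℝ) + 2) * R) →
  ((QQ.filter (fun q => Inc R δ Tu q ∧
    Sh QQ R (R ^ (1 - ε₀)) δ l k Tu (bl R (R ^ (1 - ε₀)) q) ∧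
    |(uq R T q : ℝ) - v| ≤ Real.sqrt R * R ^ (-ε₀))).card : ℝ) ≤ C * 2 ^ l

open scoped Classical in
/-- the number of cubes of the tube at the projective time `u`, in balls of the shading class -/
noncomputable def wg {m : ℕ} (QQ : Finset (Zi m)) (R T δ ε₀ : ℝ) (l k : ℕ) (Tu : Pk m) (u : ℤ) :
    ℝ :=
  ((QQ.filter (fun q => (Inc R δ Tu q ∧
    Sh QQ R (R ^ (1 - ε₀)) δ l k Tu (bl R (R ^ (1 - ε₀)) q)) ∧ uq R T q = u)).card : ℝ)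

open scoped Classical in
/-- SHW: the weights of a tube -/
def T_SHW : Prop := ∀ m : ℕ, ∃ C : ℝ, 1 ≤ C ∧ ∀ (R T δ ε₀ : ℝ) (z₀ : Z m) (Tu : Pk m)
  (QQ : Finset (Zi m)) (l k : ℕ), 1 ≤ R → 0 ≤ δ → 0 ≤ ε₀ → 2 * δ + ε₀ ≤ 1 / 2 →
  16 * ((m : ℝ) + 2) * R ≤ T → 3 / 4 * T ≤ tm z₀ → tm z₀ ≤ 3 * T → ‖ctr (sR R) Tu.1‖ ≤ 3 →
  (∀ q ∈ QQ, ‖co R q - z₀‖ ≤ ((m : ℝ) + 2) * R) → C ≤ (2 : ℝ) ^ k →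
  (∃ B, Sh QQ R (R ^ (1 - ε₀)) δ l k Tu B) →
  (∀ u : ℤ, 0 ≤ wg QQ R T δ ε₀ l k Tu u ∧
    wg QQ R T δ ε₀ l k Tu u ≤ C * R ^ (2 * ((m : ℝ) + 2) * δ)) ∧
  (2 : ℝ) ^ (l + k) ≤ ∑ u ∈ QQ.image (uq R T), wg QQ R T δ ε₀ l k Tu u ∧
  ∀ v : ℤ, 16 * ∑ u ∈ (QQ.image (uq R T)).filter
      (fun u : ℤ => |((u : ℝ) - v)| ≤ Real.sqrt R * R ^ (-ε₀)), wg QQ R T δ ε₀ l k Tu u ≤
    ∑ u ∈ QQ.image (uq R T), wg QQ R T δ ε₀ l k Tu u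

open scoped Classical in
/-- CBK: two-ends shadings, few tubes with a common back projection -/
def T_CBK : Prop := ∀ m : ℕ, 1 ≤ m → ∃ C : ℝ, 1 ≤ C ∧
  ∀ (R T δ ε₀ f : ℝ) (z₀ : Z m) (TT : Finset (Pk m)) (QQ : Finset (Zi m)) (l k : ℕ), 1 ≤ R →
  0 ≤ δ → 0 ≤ ε₀ → 2 * δ + ε₀ ≤ 1 / 2 → 16 * ((m : ℝ) + 2) * R ≤ T → 3 / 4 * T ≤ tm z₀ →
  tm z₀ ≤ 3 * T → C ≤ (2 : ℝ) ^ k →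
  (∀ Tu ∈ TT, ‖ctr (sR R) Tu.1‖ ≤ 3 ∧ ∃ B, Sh QQ R (R ^ (1 - ε₀)) δ l k Tu B) →
  (∀ q ∈ QQ, ‖co R q - z₀‖ ≤ ((m : ℝ) + 2) * R) →
  C * R ^ (lb m * (δ + ε₀)) ≤ ((2 : ℝ) ^ (l + k) / Real.sqrt R) ^ 2 * Real.sqrt R →
  (∀ (p : ℝ × E m), ∀ TT₂ ⊆ TT, (∀ Tu ∈ TT₂, ∃ q ∈ QQ, Inc R δ Tu q ∧
    ‖bp (ctr (sR R) Tu.1) (co R q) - p‖ ≤ T * sR R) → (TT₂.card : ℝ) ≤ f) →
  (TT.card : ℝ) ^ 4 * ((2 : ℝ) ^ (l + k) / Real.sqrt R) ^ (2 * m + 24) ≤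
    C * R ^ (lb m * (δ + ε₀)) * (((QQ.card : ℝ) / Real.sqrt R) ^ 7 * f)

/-- KNU: the numbers -/
def T_KNU : Prop := ∀ m : ℕ, 5 ≤ m → ∀ (R Λ t M b n Q q₄ a A f x : ℝ), 1 ≤ R → 4 ≤ Λ →
  Λ ≤ R ^ (1 / 1000 : ℝ) → 0 < t → 1 ≤ M → 1 ≤ b → 0 < n → 0 < Q → 0 < q₄ → 0 < a → 0 < A →
  0 < f → x = 28 / (11 * m - 17) → q₄ * M ≤ 4 * t * n → Q ≤ Λ * q₄ → M * n ≤ Λ * Q →
  t * b * a ^ 2 * R ^ (((m : ℝ) + 2) / 2) ≤ Λ * (A ^ 2 * R ^ ((m : ℝ) + 2)) → a ≤ Λ * A →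
  n ≤ Λ * Real.sqrt R → f * (b * a ^ 2) ≤ Λ * (A ^ 2 * R ^ 2) →
  R ^ (m * x / 2 - 1) < (n / Real.sqrt R) ^ (1 - m * x / 4) * (M * a ^ 2 / A ^ 2) ^ (x / 2) →
  Λ ≤ (n / Real.sqrt R) ^ 2 * Real.sqrt R ∧
  Λ * ((Q / Real.sqrt R) ^ 7 * f) < t ^ 4 * (n / Real.sqrt R) ^ (2 * m + 24)

/-- TENK: two ends -/
def T_TENK : Prop := ∀ m : ℕ, 5 ≤ m → ∃ γ : ℝ, 0 < γ ∧ ∀ L : ℕ, 2 * m + 6 ≤ L →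
  TENd m L (28 / (11 * m - 17)) γ

end Pool.Agent.H82.KT
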